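import Pool.Agent.Lib.MP_f4742e_al.Transfer

set_option autoImplicit false

namespace Pool.Agent.Results.MP_f4742e_al.RbHnQ

open Pool.Agent.MP_f4742e_al

/-- For every field `F` of characteristic zero and every `n ≥ 1`, the RB-index of the Jordan
algebra `H_n(Q)` of the symmetric elements of `M_{2n}(F)` under the symplectic involution is
`2n - 1`. -/
theorem result (F : Type*) [Field F] [CharZero F] (n : ℕ) (hn : 0 < n) :
    HasRBIndex F (HSymp n F) (2 * n - 1) :=
  rb_HSymp n hn

end Pool.Agent.Results.MP_f4742e_al.RbHnQ
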